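import Pool.Agent.NBT.StmtsC

/-!
Row NRS of the squad NBT: a set which is not rigid fails to be rigid at every point of a minimal
family.
-/

set_option autoImplicit false

open Matrix Filter Topology

namespace Pool.Agent.NBT.H51

open Pool.Agent.PFS Pool.Agent.PFJ Pool.Agent.NBT

variable {n K : ℕ}

/-- the subspaces `B_S` are not locally constant at `w` -/
def NR (C : Set (V n)) (T : (Fin K → V n) → Prop) (S : Finset (Fin K)) (w : Fin K → V n) : Prop :=
  ∃ z : ℕ → Fin K → V n, (∀ m, T (z m)) ∧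
    (∀ i, Tendsto (fun m => z m i) atTop (𝓝 (w i))) ∧ ∀ m, BI C (z m) S ≠ BI C w S

theorem alternate {C : Set (V n)} {T : (Fin K → V n) → Prop} {S : Finset (Fin K)}
    {w : Fin K → V n} (x y : ℕ → Fin K → V n) (hx : ∀ m, T (x m)) (hy : ∀ m, T (y m))
    (lx : ∀ i, Tendsto (fun m => x m i) atTop (𝓝 (w i)))
    (ly : ∀ i, Tendsto (fun m => y m i) atTop (𝓝 (w i)))
    (hne : ∀ m, BI C (x m) S ≠ BI C (y m) S) : NR C T S w := by
  have h1 : ∀ m, ∃ v : Fin K → V n, (v = x m ∨ v = y m) ∧ BI C v S ≠ BI C w S := by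
    intro m
    by_cases h : BI C (x m) S = BI C w S
    · refine ⟨y m, Or.inr rfl, ?_⟩
      intro h2
      exact hne m (h.trans h2.symm)
    · exact ⟨x m, Or.inl rfl, h⟩
  choose z hz hzne using h1
  refine ⟨z, ?_, ?_, hzne⟩
  · intro m
    rcases hz m with h | h
    · rw [h]
      exact hx m
    · rw [h]
      exact hy m
  · intro i
    rw [tendsto_def]
    intro s hs
    have h1 := (lx i).eventually_mem hs
    have h2 := (ly i).eventually_mem hs
    filter_upwards [h1, h2] with m k1 k2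
    rcases hz m with h | h
    · rw [Set.mem_preimage, h]
      exact k1
    · rw [Set.mem_preimage, h]
      exact k2

theorem nrs_fam (hBin : BinStmt) {C : Set (V n)} {Γ Γ₀ : Subgroup (GL (Fin n) ℝ)}
    {T : (Fin K → V n) → Prop} {c : Finset (Fin K) → ℕ} (h : TB C Γ Γ₀ T c)
    (S : Finset (Fin K)) : FAM C Γ Γ₀ (fun w => T w ∧ NR C T S w) := by
  have himg := Pool.Agent.PFJ.H32.img n
  obtain ⟨-, -, -, -, -, himg6⟩ := himg
  refine ⟨h.sub, fun w hw => h.pes w hw.1, ?_, ?_, ?_, fun x hx => h.cpt x fun m => (hx m).1⟩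
  · rintro w ⟨hw, z, hz, lz, hne⟩ g hg
    refine ⟨h.inv w hw g hg, fun m i => act g (z m i), fun m => h.inv _ (hz m) g hg, ?_, ?_⟩
    · intro i
      exact ((CC.act_continuous g).tendsto _).comp (lz i)
    · intro m he
      have e1 := ((hBin n C Γ Γ₀ K T c h w hw).2.1 g hg 1 one_pos).2 S
      have e2 := ((hBin n C Γ Γ₀ K T c h (z m) (hz m)).2.1 g hg 1 one_pos).2 S
      simp only [one_smul] at e1 e2
      apply hne m
      apply himg6 g
      rw [← e1, ← e2]
      exact he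
  · rintro w ⟨hw, z, hz, lz, hne⟩ r hr
    refine ⟨h.scl w hw r hr, fun m i => r i • z m i, fun m => h.scl _ (hz m) r hr, ?_, ?_⟩
    · intro i
      exact (lz i).const_smul (r i)
    · intro m he
      apply hne m
      have e1 := (hBin n C Γ Γ₀ K T c h w hw).1 r hr S
      have e2 := (hBin n C Γ Γ₀ K T c h (z m) (hz m)).1 r hr S
      rw [← e1, ← e2]
      exact he
  · intro x w hx lx hw
    refine ⟨h.cld x w (fun m => (hx m).1) lx hw, ?_⟩
    have h1 : ∀ m, ∃ v : Fin K → V n, T v ∧ (∀ i, dist (v i) (x m i) < 1 / ((m : ℝ) + 1)) ∧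
        BI C v S ≠ BI C (x m) S := by
      intro m
      obtain ⟨hxm, z, hz, lz, hne⟩ := hx m
      have hpos : (0 : ℝ) < 1 / ((m : ℝ) + 1) := by positivity
      have h2 : ∀ i, ∀ᶠ k in atTop, dist (z k i) (x m i) < 1 / ((m : ℝ) + 1) := by
        intro i
        exact (lz i).eventually (Metric.ball_mem_nhds _ hpos)
      obtain ⟨k, hk⟩ := (Filter.eventually_all.mpr h2).exists
      exact ⟨z k, hz k, hk, hne k⟩
    choose y hy hyd hyne using h1
    refine alternate x y (fun m => (hx m).1) hy lx ?_ (fun m he => hyne m he.symm)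
    intro i
    have h3 : Tendsto (fun m => dist (y m i) (x m i)) atTop (𝓝 0) := by
      refine squeeze_zero (fun m => dist_nonneg) (fun m => (hyd m i).le) ?_
      exact tendsto_one_div_add_atTop_nhds_zero_nat
    exact (tendsto_iff_of_dist h3).mpr (lx i)

theorem nrs (hBin : BinStmt) (hScq : ScqStmt) (hNrf : NrfStmt) : NrsStmt := by
  intro n C Γ Γ₀ K T c h hM S hR
  have himg := Pool.Agent.PFJ.H32.img n
  obtain ⟨-, -, -, -, -, himg6⟩ := himg
  have hfam := nrs_fam hBin h S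
  obtain ⟨-, -, nrf3, -, nrf5⟩ := hNrf n C Γ K h.cc
  have hne : ∃ w, T w ∧ NR C T S w := by
    unfold Rig at hR
    push Not at hR
    have h1 : ∀ m : ℕ, ∃ w z : Fin K → V n, T w ∧ T z ∧ Nr C (1 / ((m : ℝ) + 1)) w z ∧
        BI C w S ≠ BI C z S := by
      intro m
      obtain ⟨w, z, hw, hz, hn, hb⟩ := hR (1 / ((m : ℝ) + 1)) (by positivity)
      exact ⟨w, z, hw, hz, hn, hb⟩
    choose w z hw hz hn hb using h1
    obtain ⟨φ, g, s, w', hφ, hg, hs, hw', lw⟩ :=
      hScq n C Γ Γ₀ K T h.cc h.three h.toFAM w hw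
    refine ⟨w', hw', ?_⟩
    have hε : Tendsto (fun m => 1 / ((φ m : ℝ) + 1)) atTop (𝓝 0) :=
      tendsto_one_div_add_atTop_nhds_zero_nat.comp hφ.tendsto_atTop
    have hnr : ∀ m, Nr C (1 / ((φ m : ℝ) + 1)) (fun i => s m • act (g m) (w (φ m) i))
        (fun i => s m • act (g m) (z (φ m) i)) := by
      intro m
      exact nrf3 _ _ _ (g m) (h.sub (hg m)) (s m) (hs m) (hn (φ m))
    have ly := nrf5 (fun m => 1 / ((φ m : ℝ) + 1)) (fun m i => s m • act (g m) (w (φ m) i))
      (fun m i => s m • act (g m) (z (φ m) i)) w' hε hnr lw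
    refine alternate (fun m i => s m • act (g m) (w (φ m) i))
      (fun m i => s m • act (g m) (z (φ m) i)) ?_ ?_ lw ly ?_
    · intro m
      exact ((hBin n C Γ Γ₀ K T c h _ (hw (φ m))).2.1 (g m) (hg m) (s m) (hs m)).1
    · intro m
      exact ((hBin n C Γ Γ₀ K T c h _ (hz (φ m))).2.1 (g m) (hg m) (s m) (hs m)).1
    · intro m he
      have e1 := ((hBin n C Γ Γ₀ K T c h _ (hw (φ m))).2.1 (g m) (hg m) (s m) (hs m)).2 S
      have e2 := ((hBin n C Γ Γ₀ K T c h _ (hz (φ m))).2.1 (g m) (hg m) (s m) (hs m)).2 S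
      apply hb (φ m)
      apply himg6 (g m)
      rw [← e1, ← e2]
      exact he
  intro w hw
  exact (hM _ hfam (fun w hw => hw.1) hne w hw).2

end Pool.Agent.NBT.H51
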